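import Pool.Agent.Lib.GBC.S.Sieve
import Pool.Agent.Lib.GBC.C.TotalM
import Pool.Agent.Lib.GBC.M.Red
import Pool.Agent.Lib.GBC.P.FP
import Pool.Agent.Lib.GBC.G.IrrF

/-!
Module H.Half of GBC. A positive proportion of the family is regular and has all its nontrivial
classes detected at a fixed finite set `V` of places.
-/

set_option autoImplicit false

open Polynomial

namespace Pool.Agent.GBC

open Pool.Agent.BSDP Pool.Agent.BSDFF Pool.Agent.HYP

variable {k K : Type} [Field k] [Field K] [Algebra k K]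

private theorem half_pen {S T : Type} [CommRing S] [CommRing T] (φ : S →+* T) {n : ℕ}
    (G1 G2 : Matrix (Fin n) (Fin n) S) :
    (Matrix.scalar (Fin n) (X : S[X]) * G1.map C - G2.map C).det.map φ =
      (Matrix.scalar (Fin n) (X : T[X]) * (G1.map φ).map C - (G2.map φ).map C).det := by
  rw [← Polynomial.coe_mapRingHom, RingHom.map_det]
  congr 1
  ext1 i j
  rw [RingHom.mapMatrix_apply, Matrix.map_apply, Matrix.sub_apply, Matrix.sub_apply,
    Matrix.scalar_apply, Matrix.scalar_apply, Matrix.diagonal_mul, Matrix.diagonal_mul, map_sub,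
    map_mul, Polynomial.coe_mapRingHom, Polynomial.map_X]
  simp only [Matrix.map_apply, Polynomial.map_C]

/-- a polynomial of the family with an undetected nontrivial class is represented -/
theorem exists_repV [Finite k] (h2 : (2 : k) ≠ 0) (G : Geo k K) {g : ℕ} (hg : 1 ≤ g) :
    ∃ C : ℕ, ∀ (D : Data G g) (m : ℕ) (f : G.A[X]), Fam D m f → ∀ V : Finset G.FP,
      (∀ w ∈ V, G.d * C < w.1.degree) → ¬ AllDet G g V f →
      ∃ r : ℕ → ℕ, Typ g (m + C) r ∧ RepV G g m C V r f := by
  obtain ⟨C, hC⟩ := reduced h2 G g hg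
  refine ⟨C, fun D m f hf V hV hA => ?_⟩
  unfold AllDet at hA
  push Not at hA
  obtain ⟨hm, c, hc, hs, hd⟩ := hA
  obtain ⟨r, b, G1, G2, hr, h1, h2', hP⟩ := hC D m f hf hm c hc hs
  have hinj : Function.Injective (algebraMap G.A K) := Subtype.val_injective
  have hKn : (G.fK f).natDegree = 2 * g + 1 := by rw [hf.monic.natDegree_map, hf.deg]
  have hdet0 : G1.det ≠ 0 := by
    obtain ⟨u, hu, hu'⟩ := hP.det
    intro h0
    rw [h0, mul_zero] at hu'
    exact pow_ne_zero 2 hu hu'.symm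
  refine ⟨r, hr, G1, G2, hP, ?_, fun w hw => ?_⟩
  · have h3 := pencil hm hKn c b
    rw [h1, h2'] at h3
    apply Polynomial.map_injective _ hinj
    rw [half_pen, h3, Polynomial.map_mul, Polynomial.map_C]
    congr 2
    exact (RingHom.map_det (algebraMap G.A K) G1).symm
  · have h4 : (G1.map (G.res w)).det ≠ 0 := by
      intro h0
      have h5 : (G1.map (G.res w)).det = G.res w G1.det :=
        (RingHom.map_det (G.res w) G1).symm
      rw [h5] at h0
      have h6 := G.sum_degree_le hdet0 hP.detC {w} (fun w' hw' => by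
        rw [Finset.mem_singleton] at hw'
        subst hw'
        exact h0)
      rw [Finset.sum_singleton] at h6
      have h7 := hV w hw
      have h8 : ((G.d * C : ℕ) : ℤ) < (w.1.degree : ℤ) := by exact_mod_cast h7
      push_cast at h8
      omega
    refine ⟨h4, fun hD => hd w hw ?_⟩
    exact ⟨b, G1, G2, h1, h2', h4, hD⟩

theorem exists_half [Finite k] (G : Geo k K) {g : ℕ} (hg : 1 ≤ g)
    (hp : 2 * g + 1 < ringChar k) :
    ∃ E₀ : ℕ, ∀ D : Data G g, (∀ w : G.FP, w.1.degree ≤ E₀ → D.N ≤ G.prime w) →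
      ∃ V : Finset G.FP, (∀ w ∈ V, ¬ D.N ≤ G.prime w) ∧ ∃ c : ℝ, 0 < c ∧ ∃ m₀ : ℕ, ∀ m ≥ m₀,
        c * (Nat.card k : ℝ) ^ (G.d * m * (4 * g ^ 2 + 6 * g)) ≤
          Nat.card {f : G.A[X] // Fam D m f ∧ AllDet G g V f} := by
  classical
  have h2 : (2 : k) ≠ 0 := by
    intro h0
    have h1 : ((2 : ℕ) : k) = 0 := by exact_mod_cast h0
    have := Nat.le_of_dvd (by norm_num) ((ringChar.spec k 2).1 h1)
    omega
  have hn : ((2 * g + 1 : ℕ) : k) ≠ 0 := by
    intro h0
    have := Nat.le_of_dvd (by omega) ((ringChar.spec k (2 * g + 1)).1 h0)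
    omega
  obtain ⟨E₀, hE⟩ := sieve G hg hp
  obtain ⟨C, hC⟩ := exists_repV h2 G hg
  refine ⟨E₀, fun D hD => ?_⟩
  obtain ⟨c₀, hc₀, m₀, hm₀⟩ := hE D hD
  obtain ⟨n₀, hn₀⟩ := total G h2 hg hn C (half_pos hc₀)
  obtain ⟨V, hV1, hV2⟩ := Geo.exists_large G (G.d * C + G.degI D.N + 1) n₀
  obtain ⟨m₁, hm₁⟩ := hn₀ V hV1
  refine ⟨V, fun w hw hN => ?_, c₀ / 2, half_pos hc₀, max m₀ m₁, fun m hm => ?_⟩
  · have h3 := finrank_le (fun I hI => G.fin_quotI I hI) D.N_ne hN
    have h4 := hV2 w hw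
    have h5 := G.degI_prime w
    unfold Geo.degI at h5 h4
    omega
  · have h3 := hm₀ m (le_trans (le_max_left _ _) hm)
    have h4 := hm₁ m (le_trans (le_max_right _ _) hm) D
      (fun f hf => irr_fK hf.toFam₀)
    -- the finite set
    set S : Finset G.A[X] := (Sv.finite_fam₀ D m).toFinset.filter (fun f => Fam D m f) with hS
    have hmemS : ∀ f, f ∈ S ↔ Fam D m f := fun f => by
      rw [hS, Finset.mem_filter, Set.Finite.mem_toFinset]
      exact ⟨fun h => h.2, fun h => ⟨h.toFam₀, h⟩⟩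
    have hS1 : Nat.card {f : G.A[X] // Fam D m f} = S.card := Nat.subtype_card S hmemS
    have hS2 : Nat.card {f : G.A[X] // Fam D m f ∧ AllDet G g V f} =
        (S.filter (fun f => AllDet G g V f)).card := by
      refine Nat.subtype_card _ fun f => ?_
      rw [Finset.mem_filter, hmemS]
    have hS3 : Nat.card {f : G.A[X] // Fam D m f ∧ ∃ r, Typ g (m + C) r ∧ RepV G g m C V r f} =
        (S.filter (fun f => ∃ r, Typ g (m + C) r ∧ RepV G g m C V r f)).card := by
      refine Nat.subtype_card _ fun f => ?_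
      rw [Finset.mem_filter, hmemS]
    have hS4 : (S.filter (fun f => ¬ AllDet G g V f)).card ≤
        (S.filter (fun f => ∃ r, Typ g (m + C) r ∧ RepV G g m C V r f)).card := by
      refine Finset.card_le_card fun f hf => ?_
      rw [Finset.mem_filter, hmemS] at hf ⊢
      refine ⟨hf.1, hC D m f hf.1 V (fun w hw => ?_) hf.2⟩
      have h5 := hV2 w hw
      omega
    have hS5 := Finset.card_filter_add_card_filter_not (s := S) (fun f => AllDet G g V f)
    rw [hS1] at h3
    rw [hS3] at h4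
    rw [hS2]
    have h6 : (S.card : ℝ) = ((S.filter (fun f => AllDet G g V f)).card : ℝ) +
        ((S.filter (fun f => ¬ AllDet G g V f)).card : ℝ) := by
      exact_mod_cast hS5.symm
    have h7 : ((S.filter (fun f => ¬ AllDet G g V f)).card : ℝ) ≤
        ((S.filter (fun f => ∃ r, Typ g (m + C) r ∧ RepV G g m C V r f)).card : ℝ) := by
      exact_mod_cast hS4
    have h8 : G.d * (m * (4 * g ^ 2 + 6 * g)) = G.d * m * (4 * g ^ 2 + 6 * g) := by ring
    rw [h8] at h4
    have h9 : c₀ / 2 * (Nat.card k : ℝ) ^ (G.d * m * (4 * g ^ 2 + 6 * g)) =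
        c₀ * (Nat.card k : ℝ) ^ (G.d * m * (4 * g ^ 2 + 6 * g)) -
          c₀ / 2 * (Nat.card k : ℝ) ^ (G.d * m * (4 * g ^ 2 + 6 * g)) := by ring
    rw [h9]
    linarith

end Pool.Agent.GBC
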