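import Pool.Agent.Lib.GBC.H.Fib
import Pool.Agent.Lib.GBC.H.Half
import Pool.Agent.Lib.GBC.D.Tw
import Pool.Agent.Lib.GBC.G.Twist

/-!
Block H. A positive proportion of the classes of models of height at most `M` consists of twists
with trivial `2`-Selmer group of members of the family.
-/

set_option autoImplicit false

open Polynomial

namespace Pool.Agent.GBC

open Pool.Agent.BSDP Pool.Agent.BSDFF Pool.Agent.HYP

variable {k K : Type} [Field k] [Field K] [Algebra k K]

theorem HeightLE.mono {g M M' : ℕ} {f : K[X]} (h : HeightLE k g M f) (hM : M ≤ M') :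
    HeightLE k g M' f := by
  obtain ⟨D, h1, h2⟩ := h
  exact ⟨D, h1, h2.trans (by exact_mod_cast hM)⟩

theorem Classes.mono {g M M' : ℕ} (P : K[X] → Prop) (hM : M ≤ M') :
    Classes k g M P ⊆ Classes k g M' P := by
  rintro _ ⟨f, rfl, h1, h2, h3⟩
  exact ⟨f, rfl, h1, h2.mono hM, h3⟩

/-- A twist with trivial `2`-Selmer group of a member of the family of `D`. -/
def Good {G : Geo k K} {g : ℕ} (D : Data G g) (F : K[X]) : Prop :=
  SelTriv k g F ∧ ∃ (m : ℕ) (f : G.A[X]) (e : K), 1 ≤ m ∧ Fam D m f ∧ e ≠ 0 ∧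
    F = (G.fK f).scaleRoots e

private theorem dens_count [Finite k] (hL : LocC k K) {g : ℕ} (hg : 1 ≤ g) (hR : Rec k K g)
    (hp : 2 * g + 1 < ringChar k) (G : Geo k K) (D : Data G g) (V : Finset G.FP)
    (hV : ∀ W ⊆ V, ∃ e : G.A, Twister G D.N W e) :
    ∃ y : ℕ, ∀ m ≥ 1, Nat.card {f : G.A[X] // Fam D m f ∧ AllDet G g V f} ≤
      2 ^ V.card * Nat.card (G.A.toSubmodule ⊓ G.B.toSubmodule : Submodule k K) *
        (Classes k g (G.d * (m + y)) (Good D)).ncard := by
  classical
  have h2 : (2 : k) ≠ 0 := by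
    intro h0
    have h1 : ((2 : ℕ) : k) = 0 := by exact_mod_cast h0
    have := Nat.le_of_dvd (by norm_num) ((ringChar.spec k 2).1 h1)
    omega
  have hn : ((2 * g + 1 : ℕ) : k) ≠ 0 := by
    intro h0
    have := Nat.le_of_dvd (by omega) ((ringChar.spec k (2 * g + 1)).1 h0)
    omega
  have hV' : ∀ W : Finset G.FP, ∃ e : G.A, W ⊆ V → Twister G D.N W e := by
    intro W
    by_cases hW : W ⊆ V
    · obtain ⟨e, he⟩ := hV W hW
      exact ⟨e, fun _ => he⟩
    · exact ⟨0, fun h => absurd h hW⟩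
  choose e he using hV'
  have hy : ∀ W : Finset G.FP, ∃ n : ℕ, (e W : K) ∈ G.M n := fun W => G.exists_mem_M _
  choose n hn' using hy
  set y : ℕ := V.powerset.sup n with hydef
  have hey : ∀ W ⊆ V, (e W : K) ∈ G.M y := by
    intro W hW
    refine G.M_mono ?_ (hn' W)
    have := Finset.le_sup (f := n) (Finset.mem_powerset.2 hW)
    exact_mod_cast this
  refine ⟨y, fun m hm => ?_⟩
  set S : Finset G.A[X] :=
    (Sv.finite_fam₀ D m).toFinset.filter (fun f => Fam D m f ∧ AllDet G g V f) with hS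
  have hmemS : ∀ f, f ∈ S ↔ Fam D m f ∧ AllDet G g V f := fun f => by
    rw [hS, Finset.mem_filter, Set.Finite.mem_toFinset]
    exact ⟨fun h => h.2, fun h => ⟨h.1.toFam₀, h⟩⟩
  have hScard : Nat.card {f : G.A[X] // Fam D m f ∧ AllDet G g V f} = S.card :=
    Nat.subtype_card S hmemS
  rw [hScard]
  have hW : ∀ f : G.A[X], ∃ W ∈ V.powerset, f ∈ S → SelTriv k g ((G.fK f).scaleRoots (e W : K)) := by
    intro f
    by_cases hf : f ∈ S
    · obtain ⟨W, hWV, hW⟩ := twist hL hR h2 hg ((hmemS f).1 hf).1 ((hmemS f).1 hf).2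
      exact ⟨W, Finset.mem_powerset.2 hWV, fun _ => hW (e W) (he W hWV)⟩
    · exact ⟨∅, Finset.mem_powerset.2 (Finset.empty_subset _), fun h => absurd h hf⟩
  choose W hW1 hW2 using hW
  have hfinC : (Classes k g (G.d * (m + y)) (Good D)).Finite := by
    obtain ⟨C, hC⟩ := upper G g
    exact (hC _ _).1
  rw [Finset.card_eq_sum_card_fiberwise (f := W) (t := V.powerset) (fun f _ => hW1 f)]
  refine (Finset.sum_le_card_nsmul V.powerset _
    (Nat.card (G.A.toSubmodule ⊓ G.B.toSubmodule : Submodule k K) *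
        (Classes k g (G.d * (m + y)) (Good D)).ncard) fun U hU => ?_).trans (le_of_eq ?_)
  · have hUV := Finset.mem_powerset.1 hU
    have he0 : (e U : K) ≠ 0 := fun h0 => (he U hUV).ne (Subtype.ext h0)
    refine (card_fib (D := D) (m := m) hg he0 (S.filter (fun f => W f = U)) (fun f hf => ?_)).trans
      (Nat.mul_le_mul_left _ (Set.ncard_le_ncard ?_ hfinC))
    · exact ((hmemS f).1 (Finset.mem_filter.1 hf).1).1
    · rintro _ ⟨f, hf, rfl⟩
      obtain ⟨hf1, hf2⟩ := Finset.mem_filter.1 (Finset.mem_coe.1 hf)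
      have hfF := ((hmemS f).1 hf1).1
      refine ⟨_, rfl, model_twist hn hfF.toFam₀ he0, height_twist hfF.toFam₀ (hey U hUV), ?_,
        m, f, (e U : K), hm, hfF, he0, rfl⟩
      have := hW2 f hf1
      rwa [hf2] at this
  · rw [Finset.card_powerset, smul_eq_mul]
    ring

/-- **Density**. `Q` is an additional property of the leading form. -/
theorem density [Finite k] (hL : LocC k K) {g : ℕ} (hg : 1 ≤ g) (hR : Rec k K g)
    (hp : 2 * g + 1 < ringChar k) (G : Geo k K) (Q : Data G g → Prop)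
    (hD : ∀ N : Ideal G.A, N ≠ ⊥ → N.IsRadical → ∃ D : Data G g, D.N = N ∧ Q D) :
    ∃ D : Data G g, Q D ∧ ∃ c : ℝ, 0 < c ∧ ∃ M₀ : ℕ, ∀ M ≥ M₀,
      c * ((Classes k g M (fun _ : K[X] => True)).ncard : ℝ) ≤ (Classes k g M (Good D)).ncard ∧
      c * (Nat.card k : ℝ) ^ ((4 * g ^ 2 + 6 * g) * M) ≤ (Classes k g M (Good D)).ncard := by
  obtain ⟨E₀, hE⟩ := exists_half G hg hp
  obtain ⟨C₂, hC₂⟩ := exists_twister G
  obtain ⟨N, hN0, hNr, hN1, -⟩ := exists_conductor G (max E₀ C₂)
  obtain ⟨D, rfl, hQ⟩ := hD N hN0 hNr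
  refine ⟨D, hQ, ?_⟩
  obtain ⟨V, hV, c, hc, m₀, hm₀⟩ := hE D (fun w hw => hN1 _ (G.prime_max w)
    (by rw [G.degI_prime w]; exact hw.trans (le_max_left _ _)))
  obtain ⟨y, hy⟩ := dens_count hL hg hR hp G D V (fun W hW => hC₂ D.N
    (fun P hP h => hN1 P hP (h.trans (le_max_right _ _))) W (fun w hw => hV w (hW hw)))
  obtain ⟨C, hC⟩ := upper G g
  set q : ℝ := (Nat.card k : ℝ) with hq
  set E : ℕ := 4 * g ^ 2 + 6 * g with hEdef
  set a : ℕ := 2 ^ V.card * Nat.card (G.A.toSubmodule ⊓ G.B.toSubmodule : Submodule k K) with ha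
  have hfin : Finite (G.A.toSubmodule ⊓ G.B.toSubmodule : Submodule k K) := by
    have := G.fin_inf
    exact Module.finite_of_finite k
  have ha0 : 0 < a := Nat.mul_pos (by positivity) Nat.card_pos
  have haR : (0 : ℝ) < a := by exact_mod_cast ha0
  have hk : 1 < Nat.card k := Finite.one_lt_card
  have hq1 : (1 : ℝ) ≤ q := by
    rw [hq]
    exact_mod_cast hk.le
  have hq0 : (0 : ℝ) < q := by linarith
  have hC0 : (0 : ℝ) ≤ C := Nat.cast_nonneg _
  -- the lower bound
  have hlow : ∀ M ≥ G.d * (max m₀ 1 + y + 1),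
      c / (a * q ^ (G.d * (y + 1) * E)) * q ^ (E * M) ≤
        ((Classes k g M (Good D)).ncard : ℝ) := by
    intro M hM
    have hd := G.d_pos
    have hMd : max m₀ 1 + y + 1 ≤ M / G.d := by
      rw [Nat.le_div_iff_mul_le hd]
      calc (max m₀ 1 + y + 1) * G.d = G.d * (max m₀ 1 + y + 1) := by ring
        _ ≤ M := hM
    obtain ⟨m, hm⟩ : ∃ m, M / G.d = m + y := ⟨M / G.d - y, by omega⟩
    have hm1 : max m₀ 1 ≤ m := by omega
    have hlow : G.d * (m + y) ≤ M := by
      rw [← hm]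
      exact Nat.mul_div_le M G.d
    have hhigh : M ≤ G.d * (m + y + 1) := by
      have := Nat.lt_mul_div_succ M hd
      rw [hm] at this
      exact this.le
    have hlo : c * q ^ (G.d * m * E) ≤ a * ((Classes k g M (Good D)).ncard : ℝ) := by
      have h1 := hm₀ m (le_trans (le_max_left _ _) hm1)
      have h2 := hy m (le_trans (le_max_right _ _) hm1)
      have h3 : (Classes k g (G.d * (m + y)) (Good D)).ncard ≤ (Classes k g M (Good D)).ncard :=
        Set.ncard_le_ncard (Classes.mono _ hlow) (hC M (Good D)).1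
      have h4 : (Nat.card {f : G.A[X] // Fam D m f ∧ AllDet G g V f} : ℝ) ≤
          a * ((Classes k g M (Good D)).ncard : ℝ) := by
        have : Nat.card {f : G.A[X] // Fam D m f ∧ AllDet G g V f} ≤
            a * (Classes k g M (Good D)).ncard := h2.trans (Nat.mul_le_mul_left _ h3)
        exact_mod_cast this
      exact h1.trans h4
    have h2 : q ^ (E * M) ≤ q ^ (G.d * (y + 1) * E) * q ^ (G.d * m * E) := by
      rw [← pow_add]
      apply pow_le_pow_right₀ hq1
      have : E * M ≤ E * (G.d * (m + y + 1)) := Nat.mul_le_mul_left _ hhigh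
      refine this.trans (le_of_eq ?_)
      ring
    rw [div_mul_eq_mul_div, div_le_iff₀ (by positivity)]
    calc c * q ^ (E * M)
        ≤ c * (q ^ (G.d * (y + 1) * E) * q ^ (G.d * m * E)) :=
          mul_le_mul_of_nonneg_left h2 hc.le
      _ = q ^ (G.d * (y + 1) * E) * (c * q ^ (G.d * m * E)) := by ring
      _ ≤ q ^ (G.d * (y + 1) * E) * (a * ((Classes k g M (Good D)).ncard : ℝ)) :=
          mul_le_mul_of_nonneg_left hlo (by positivity)
      _ = _ := by ring
  set c₁ : ℝ := c / (a * q ^ (G.d * (y + 1) * E)) with hc₁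
  have hc₁0 : 0 < c₁ := by positivity
  refine ⟨c₁ / (C + 1), by positivity, G.d * (max m₀ 1 + y + 1), fun M hM => ?_⟩
  have h1 := hlow M hM
  have h2 : ((Classes k g M (fun _ : K[X] => True)).ncard : ℝ) ≤ C * q ^ (E * M) := by
    have := (hC M (fun _ : K[X] => True)).2
    rw [mul_comm M] at this
    rw [hq]
    exact_mod_cast this
  have h3 : (0 : ℝ) < q ^ (E * M) := by positivity
  constructor
  · refine le_trans ?_ h1
    rw [div_mul_eq_mul_div, div_le_iff₀ (by positivity), mul_assoc]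
    refine mul_le_mul_of_nonneg_left (h2.trans ?_) hc₁0.le
    nlinarith
  · refine le_trans ?_ h1
    refine mul_le_mul_of_nonneg_right ?_ h3.le
    rw [div_le_iff₀ (by positivity)]
    nlinarith

end Pool.Agent.GBC
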