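import Pool.Agent.Lib.GBC.H.Height

/-!
Block H (heights). The fibres of `f ↦` class of the twist of `f` by a fixed `e`: if `f`, `f'` of the
family have isomorphic twists then `f' = f.scaleRoots λ` with `λ` a unit of `A` (regularity with
`p = X`) and of `B` (the leading form has a constant coefficient which is a unit), so the fibres have at
most `#(A ∩ B)` elements.
-/

set_option autoImplicit false

open Polynomial

namespace Pool.Agent.GBC

open Pool.Agent.BSDP Pool.Agent.BSDFF Pool.Agent.HYP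

/-- `f` with `f_0 ∈ P ^ 2` and `f_1 ∈ P` is not regular at `P`. -/
theorem not_regI {R : Type} [CommRing R] [Nontrivial R] (P : Ideal R) {f : R[X]}
    (h0 : f.coeff 0 ∈ P ^ 2) (h1 : f.coeff 1 ∈ P) : ¬ RegI P f := by
  intro h
  refine h X monic_X (by simp) ?_
  have hX : (X : R[X]) ∈ P.map (C : R →+* R[X]) ⊔ Ideal.span {(X : R[X])} :=
    Ideal.mem_sup_right (Ideal.mem_span_singleton_self _)
  have hC1 : (C (f.coeff 1) : R[X]) ∈ P.map (C : R →+* R[X]) ⊔ Ideal.span {(X : R[X])} :=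
    Ideal.mem_sup_left (Ideal.mem_map_of_mem _ h1)
  have hC0 : (C (f.coeff 0) : R[X]) ∈ (P.map (C : R →+* R[X]) ⊔ Ideal.span {(X : R[X])}) ^ 2 := by
    refine Ideal.pow_right_mono (le_sup_left (a := P.map (C : R →+* R[X]))) 2 ?_
    rw [← Ideal.map_pow]
    exact Ideal.mem_map_of_mem _ h0
  have e : f = divX (divX f) * (X * X) + C (f.coeff 1) * X + C (f.coeff 0) := by
    have e1 := divX_mul_X_add f
    have e2 := divX_mul_X_add (divX f)
    rw [coeff_divX, zero_add] at e2
    calc f = divX f * X + C (f.coeff 0) := e1.symm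
      _ = (divX (divX f) * X + C (f.coeff 1)) * X + C (f.coeff 0) := by rw [e2]
      _ = _ := by ring
  rw [e]
  refine add_mem (add_mem ?_ ?_) hC0
  · refine Ideal.mul_mem_left _ _ ?_
    rw [pow_two]
    exact Ideal.mul_mem_mul hX hX
  · rw [pow_two]
    exact Ideal.mul_mem_mul hC1 hX

variable {k K : Type} [Field k] [Field K] [Algebra k K] {G : Geo k K} {g m : ℕ} {D : Data G g}

/-- The constant coefficient of the leading form is a unit. -/
theorem phi_zero_notMem (D : Data G g) (hg : 1 ≤ g) {I : Ideal G.B} (hI : I.IsMaximal) :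
    D.φ.coeff 0 ∉ I := by
  intro h
  have := hI.isPrime
  have hirr := D.irr I hI
  have h0 : (D.φ.map (Ideal.Quotient.mk I)).coeff 0 = 0 := by
    rw [coeff_map, Ideal.Quotient.eq_zero_iff_mem.2 h]
  obtain ⟨q, hq⟩ := X_dvd_iff.2 h0
  have hdeg : (D.φ.map (Ideal.Quotient.mk I)).natDegree = 2 * g + 1 := by
    rw [D.monic.natDegree_map, D.deg]
  have hq0 : q ≠ 0 := by
    rintro rfl
    rw [mul_zero] at hq
    rw [hq, natDegree_zero] at hdeg
    omega
  rcases hirr.isUnit_or_isUnit hq with h1 | h1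
  · exact not_isUnit_X h1
  · have h2 : q.natDegree = 0 := natDegree_eq_zero_of_isUnit h1
    rw [hq, natDegree_mul X_ne_zero hq0, natDegree_X, h2] at hdeg
    omega

/-- The order of the constant coefficient at infinity. -/
theorem ord_coeff_zero (hg : 1 ≤ g) {f : G.A[X]} (hf : Fam₀ D m f) {w : Place k K}
    (hw : Over G.B w) :
    (f.coeff 0 : K) ≠ 0 ∧ ord w (f.coeff 0 : K) = 2 * m * (2 * g + 1) * ord w G.t := by
  have := G.dedB
  have := G.fracB
  have hφ := phi_zero_notMem D hg (cen_isMaximal G.B hw)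
  have hφ0 : (D.φ.coeff 0 : K) ≠ 0 := by
    intro h
    apply hφ
    have : D.φ.coeff 0 = 0 := Subtype.ext h
    rw [this]
    exact zero_mem _
  have hφo : ord w (D.φ.coeff 0 : K) = 0 := by
    rw [mem_cen, val_lt_one_iff w hφ0] at hφ
    have h1 := (mem_ring_iff w hφ0).1 (hw _ (D.φ.coeff 0).2)
    omega
  have ht : ord w G.t < 0 := G.ord_t_neg hw
  have htp : G.t ^ (2 * m * (2 * g + 1)) ≠ 0 := pow_ne_zero _ G.t_ne
  have hz0 : G.t ^ (2 * m * (2 * g + 1)) * (D.φ.coeff 0 : K) ≠ 0 := mul_ne_zero htp hφ0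
  have hz : ord w (G.t ^ (2 * m * (2 * g + 1)) * (D.φ.coeff 0 : K)) =
      2 * m * (2 * g + 1) * ord w G.t := by
    rw [ord_mul w htp hφ0, ord_pow w G.t_ne, hφo, add_zero]
    push_cast
    ring
  have hlead := hf.lead 0 (Nat.zero_le _)
  rw [Nat.sub_zero] at hlead
  set y : K := (f.coeff 0 : K) - G.t ^ (2 * m * (2 * g + 1)) * (D.φ.coeff 0 : K) with hy
  have hy1 : y = 0 ∨ ord w (G.t ^ (2 * m * (2 * g + 1)) * (D.φ.coeff 0 : K)) < ord w y := by
    by_cases h0 : y = 0
    · exact Or.inl h0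
    · right
      have h1 := (G.mem_M_iff _ h0).1 hlead w hw
      rw [hz]
      push_cast at h1
      nlinarith
  have h1 := ord_add_of_lt w hz0 hy1
  have h2 : G.t ^ (2 * m * (2 * g + 1)) * (D.φ.coeff 0 : K) + y = (f.coeff 0 : K) := by
    rw [hy]; ring
  rw [h2] at h1
  exact ⟨h1.1, h1.2.trans hz⟩

theorem ord_inf_eq_zero (hg : 1 ≤ g) {f f' : G.A[X]} (hf : Fam₀ D m f) (hf' : Fam₀ D m f') {l : K}
    (hl : l ≠ 0) (h : G.fK f' = (G.fK f).scaleRoots l) {w : Place k K} (hw : Over G.B w) :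
    ord w l = 0 := by
  obtain ⟨h1, h2⟩ := ord_coeff_zero hg hf hw
  obtain ⟨h1', h2'⟩ := ord_coeff_zero hg hf' hw
  have h3 : (f'.coeff 0 : K) = (f.coeff 0 : K) * l ^ (2 * g + 1) := by
    have := congrArg (fun p => coeff p 0) h
    rw [coeff_twist hf, coeff_map] at this
    exact this
  rw [h3, ord_mul w h1 (pow_ne_zero _ hl), h2, ord_pow w hl] at h2'
  have h4 : ((2 * g + 1 : ℕ) : ℤ) * ord w l = 0 := by linarith
  rcases mul_eq_zero.1 h4 with h5 | h5
  · exfalso
    omega
  · exact h5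

theorem ord_fin_le_zero (hg : 1 ≤ g) {f f' : G.A[X]} (hf : Fam₀ D m f) (hf' : Fam D m f') {l : K}
    (hl : l ≠ 0) (h : G.fK f' = (G.fK f).scaleRoots l) {w : Place k K} (hw : Over G.A w) :
    ord w l ≤ 0 := by
  by_contra hlt
  have hlt' : 1 ≤ ord w l := by omega
  have hco : ∀ j, (f'.coeff j : K) = (f.coeff j : K) * l ^ (2 * g + 1 - j) := by
    intro j
    have := congrArg (fun p => coeff p j) h
    rw [coeff_twist hf, coeff_map] at this
    exact this
  have key : ∀ j i : ℕ, i ≤ 2 * g + 1 - j → f'.coeff j ∈ cen G.A w hw ^ i := by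
    intro j i hij
    rw [mem_cen_pow]
    by_cases h0 : f'.coeff j = 0
    · exact Or.inl h0
    · right
      have h0' : (f'.coeff j : K) ≠ 0 := fun h => h0 (Subtype.ext h)
      rw [hco] at h0' ⊢
      have ha := left_ne_zero_of_mul h0'
      rw [ord_mul w ha (right_ne_zero_of_mul h0'), ord_pow w hl]
      have h1 := (mem_ring_iff w ha).1 (hw _ (f.coeff j).2)
      have h2 : (i : ℤ) ≤ ((2 * g + 1 - j : ℕ) : ℤ) := by exact_mod_cast hij
      have h3 : (0 : ℤ) ≤ ((2 * g + 1 - j : ℕ) : ℤ) := Nat.cast_nonneg _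
      nlinarith
  refine not_regI (cen G.A w hw) (key 0 2 (by omega)) ?_ (hf'.reg _ (cen_isMaximal G.A hw))
  have := key 1 1 (by omega)
  rwa [pow_one] at this

/-- If the twists of `f` and `f'` by `e` are isomorphic, `f' = f.scaleRoots λ` with
`λ ∈ A ∩ B`. -/
theorem fib (hg : 1 ≤ g) {f f' : G.A[X]} (hf : Fam D m f) (hf' : Fam D m f') {e : K} (he : e ≠ 0)
    (h : Quotient.mk (isoRel K) ((G.fK f).scaleRoots e) =
      Quotient.mk (isoRel K) ((G.fK f').scaleRoots e)) :
    ∃ l : (G.A.toSubmodule ⊓ G.B.toSubmodule : Submodule k K),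
      G.fK f' = (G.fK f).scaleRoots (l : K) := by
  obtain ⟨u, hu, hu'⟩ : ∃ u : K, u ≠ 0 ∧
      (G.fK f').scaleRoots e = ((G.fK f).scaleRoots e).scaleRoots (u ^ 2) := Quotient.exact h
  have hl : u ^ 2 ≠ 0 := pow_ne_zero 2 hu
  have hsc : G.fK f' = (G.fK f).scaleRoots (u ^ 2) := by
    ext j
    have h1 := congrArg (fun p => coeff p j) hu'
    rw [coeff_twist hf'.toFam₀, coeff_scaleRoots, natDegree_scaleRoots, coeff_twist hf.toFam₀,
      hf.monic.natDegree_map, hf.deg] at h1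
    rw [coeff_map, coeff_twist hf.toFam₀]
    change (f'.coeff j : K) = _
    have h2 : e ^ (2 * g + 1 - j) ≠ 0 := pow_ne_zero _ he
    refine mul_right_cancel₀ h2 ?_
    rw [h1]
    ring
  have hsc' : G.fK f = (G.fK f').scaleRoots (u ^ 2)⁻¹ := by
    ext j
    rw [hsc, coeff_scaleRoots, natDegree_scaleRoots, coeff_scaleRoots, mul_assoc, ← mul_pow,
      mul_inv_cancel₀ hl, one_pow, mul_one]
  have hA : u ^ 2 ∈ G.A := by
    refine mem_A_of_ord G fun w hw => Or.inr ?_
    have h1 := ord_fin_le_zero hg hf'.toFam₀ hf (inv_ne_zero hl) hsc' hw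
    rw [ord_inv w hl] at h1
    omega
  have hB : u ^ 2 ∈ G.B := by
    rw [← G.mem_M_zero, G.mem_M_iff _ hl]
    intro w hw
    rw [ord_inf_eq_zero hg hf.toFam₀ hf'.toFam₀ hl hsc hw, zero_mul]
  exact ⟨⟨u ^ 2, hA, hB⟩, hsc⟩

theorem card_fib [Finite k] (hg : 1 ≤ g) {e : K} (he : e ≠ 0) (S : Finset G.A[X])
    (hS : ∀ f ∈ S, Fam D m f) : S.card ≤
      Nat.card (G.A.toSubmodule ⊓ G.B.toSubmodule : Submodule k K) *
        ((fun f : G.A[X] => Quotient.mk (isoRel K) ((G.fK f).scaleRoots e)) '' (S : Set G.A[X])).ncard := by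
  classical
  have := G.fin_inf
  have hfin : Finite (G.A.toSubmodule ⊓ G.B.toSubmodule : Submodule k K) :=
    Module.finite_of_finite k
  set F := fun f : G.A[X] => Quotient.mk (isoRel K) ((G.fK f).scaleRoots e) with hF
  rw [← Finset.coe_image, Set.ncard_coe_finset]
  refine Finset.card_le_mul_card_image S _ fun a ha => ?_
  obtain ⟨f₁, hf₁, rfl⟩ := Finset.mem_image.1 ha
  have hex : ∀ x : {x // x ∈ S.filter (fun x => F x = F f₁)},
      ∃ l : (G.A.toSubmodule ⊓ G.B.toSubmodule : Submodule k K),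
        G.fK x.1 = (G.fK f₁).scaleRoots (l : K) := by
    rintro ⟨x, hx⟩
    obtain ⟨hx1, hx2⟩ := Finset.mem_filter.1 hx
    exact fib hg (hS _ hf₁) (hS _ hx1) he hx2.symm
  choose L hL using hex
  have hinj : Function.Injective L := by
    intro x y hxy
    have h1 : G.fK x.1 = G.fK y.1 := by rw [hL x, hL y, hxy]
    exact Subtype.ext (map_injective _ (Subtype.val_injective) h1)
  have := Nat.card_le_card_of_injective L hinj
  rwa [Nat.card_eq_fintype_card, Fintype.card_coe] at this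

end Pool.Agent.GBC
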