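import Pool.Agent.Lib.GBC.H.Upper
import Pool.Agent.Lib.GBC.G.IrrF
import Pool.Agent.Lib.HYP.H.IrrTw

/-!
Block H (heights). The twists of the members of the family are models of height at most `d (m + y)`.
-/

set_option autoImplicit false

open Polynomial

namespace Pool.Agent.GBC

open Pool.Agent.BSDP Pool.Agent.BSDFF Pool.Agent.HYP

variable {k K : Type} [Field k] [Field K] [Algebra k K] {G : Geo k K} {g m : ℕ} {D : Data G g}

theorem Fam₀.mem_M {f : G.A[X]} (hf : Fam₀ D m f) {j : ℕ} (hj : j ≤ 2 * g + 1) :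
    (f.coeff j : K) ∈ G.M (2 * m * (2 * g + 1 - j : ℕ)) := by
  have h1 : (f.coeff j : K) - G.t ^ (2 * m * (2 * g + 1 - j)) * (D.φ.coeff j : K) ∈
      G.M (2 * m * (2 * g + 1 - j : ℕ)) := G.M_mono (by omega) (hf.lead j hj)
  have h2 : G.t ^ (2 * m * (2 * g + 1 - j)) * (D.φ.coeff j : K) ∈
      G.M (2 * m * (2 * g + 1 - j : ℕ)) := by
    have h3 : (D.φ.coeff j : K) ∈ G.M 0 := (G.mem_M_zero _).2 (D.φ.coeff j).2
    have h4 := (G.zpow_mul_mem_M (z := ((2 * m * (2 * g + 1 - j) : ℕ) : ℤ))).2 h3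
    rw [zpow_natCast, zero_add] at h4
    push_cast at h4 ⊢
    exact h4
  have h5 := add_mem h1 h2
  rwa [sub_add_cancel] at h5

theorem coeff_twist {f : G.A[X]} (hf : Fam₀ D m f) (e : K) (j : ℕ) :
    ((G.fK f).scaleRoots e).coeff j = (f.coeff j : K) * e ^ (2 * g + 1 - j) := by
  rw [coeff_scaleRoots, hf.monic.natDegree_map, hf.deg, coeff_map]
  rfl

theorem height_twist {y : ℕ} {f : G.A[X]} (hf : Fam₀ D m f) {e : G.A} (he : (e : K) ∈ G.M y) :
    HeightLE k g (G.d * (m + y)) ((G.fK f).scaleRoots (e : K)) := by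
  obtain ⟨T, hT1, hT2, hT3⟩ := G.exists_tDiv
  refine ⟨((m + y : ℕ) : ℤ) • T, fun v i hi => ?_, ?_⟩
  · rw [poleLE_iff, coeff_twist hf]
    have hsub : 2 * g + 1 - (2 * g + 1 - i) = i := by omega
    rw [hsub]
    by_cases h0 : (f.coeff (2 * g + 1 - i) : K) * (e : K) ^ i = 0
    · exact Or.inl h0
    · right
      have hv : (((m + y : ℕ) : ℤ) • T) v = ((m + y : ℕ) : ℤ) * T v := by
        rw [Finsupp.smul_apply, smul_eq_mul]
      rw [hv]
      rcases G.places v with hA | hB
      · rw [hT2 v hA, mul_zero, mul_zero, neg_zero]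
        have hmem : (f.coeff (2 * g + 1 - i) : K) * (e : K) ^ i ∈ G.A :=
          mul_mem (f.coeff (2 * g + 1 - i)).2 (pow_mem e.2 i)
        exact (mem_ring_iff v h0).1 (hA _ hmem)
      · rw [hT1 v hB]
        have h1 : (f.coeff (2 * g + 1 - i) : K) ∈ G.M (2 * m * (i : ℕ)) := by
          have := hf.mem_M (j := 2 * g + 1 - i) (by omega)
          rwa [hsub] at this
        have h2 : (e : K) ^ i ∈ G.M ((i : ℤ) * (y : ℤ)) := G.pow_mem_M he i
        have h3 := G.mul_mem_M h1 h2
        have h4 : (f.coeff (2 * g + 1 - i) : K) * (e : K) ^ i ∈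
            G.M (2 * i * ((m + y : ℕ) : ℤ)) := by
          refine G.M_mono ?_ h3
          have : (0 : ℤ) ≤ (i : ℤ) * (y : ℤ) := by positivity
          push_cast
          nlinarith
        have h5 := (G.mem_M_iff _ h0).1 h4 v hB
        linarith
  · change degD (((m + y : ℕ) : ℤ) • T) ≤ _
    rw [degD_smul, hT3]
    push_cast
    linarith

theorem model_twist (hn : ((2 * g + 1 : ℕ) : k) ≠ 0) {f : G.A[X]} (hf : Fam₀ D m f) {e : K}
    (he : e ≠ 0) : Model g ((G.fK f).scaleRoots e) := by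
  have hdeg : ((G.fK f).scaleRoots e).natDegree = 2 * g + 1 := by
    rw [natDegree_scaleRoots, hf.monic.natDegree_map, hf.deg]
  have hmon : ((G.fK f).scaleRoots e).Monic :=
    (monic_scaleRoots_iff _).2 (hf.monic.map _)
  refine ⟨hmon, hdeg, ?_, ?_⟩
  · rw [coeff_twist hf, hf.tr]
    change (0 : K) * _ = 0
    rw [zero_mul]
  · have hirr : Irreducible ((G.fK f).scaleRoots e) := irreducible_scale he rfl (irr_fK hf)
    rw [separable_iff_derivative_ne_zero hirr]
    intro h0
    have h1 : (derivative ((G.fK f).scaleRoots e)).coeff (2 * g) = 0 := by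
      rw [h0, coeff_zero]
    rw [coeff_derivative] at h1
    have h2 : ((G.fK f).scaleRoots e).coeff (2 * g + 1) = 1 := by
      have := hmon.coeff_natDegree
      rwa [hdeg] at this
    rw [h2, one_mul] at h1
    apply hn
    have h3 : algebraMap k K ((2 * g + 1 : ℕ) : k) = 0 := by
      rw [map_natCast]
      push_cast
      exact_mod_cast h1
    exact (map_eq_zero _).1 h3

end Pool.Agent.GBC
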