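import Mathlib.FieldTheory.SeparablyGenerated
import Mathlib.FieldTheory.RatFunc.AsPolynomial
import Mathlib.FieldTheory.IntermediateField.Adjoin.Algebra

/-!
Block H. A finitely generated extension `K` of transcendence degree one of a perfect field `k` is a
finite separable extension of `k(t)` for some `t`.
-/

set_option autoImplicit false

open Polynomial IntermediateField

namespace Pool.Agent.GBC

theorem exists_ratFunc (k K : Type) [Field k] [PerfectField k] [Field K] [Algebra k K]
    [Algebra.EssFiniteType k K] (h : Algebra.trdeg k K = 1) :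
    ∃ _ : Algebra (RatFunc k) K, IsScalarTower k (RatFunc k) K ∧ FiniteDimensional (RatFunc k) K ∧
      Algebra.IsSeparable (RatFunc k) K := by
  classical
  obtain ⟨s, hs, hsep⟩ := exists_isTranscendenceBasis_and_isSeparable_of_perfectField k K
  have hc : s.card = 1 := by
    have := hs.cardinalMk_eq_trdeg
    rw [h, Cardinal.mk_coe_finset] at this
    exact_mod_cast this
  obtain ⟨t, rfl⟩ := Finset.card_eq_one.1 hc
  have ht : Transcendental k t :=
    hs.1.transcendental ⟨t, Finset.mem_singleton_self t⟩
  rw [Finset.coe_singleton] at hsep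
  let e : RatFunc k ≃ₐ[k] k⟮t⟯ := RatFunc.algEquivOfTranscendental t ht
  let alg : Algebra (RatFunc k) K := ((algebraMap k⟮t⟯ K).comp e.toRingHom).toAlgebra
  have hcomp : ∀ x : RatFunc k, algebraMap (RatFunc k) K x = algebraMap k⟮t⟯ K (e x) := fun x => rfl
  have hst : IsScalarTower k (RatFunc k) K := by
    refine IsScalarTower.of_algebraMap_eq fun x => ?_
    rw [hcomp, AlgEquiv.commutes]
    exact IsScalarTower.algebraMap_apply k k⟮t⟯ K x
  have hsep' : Algebra.IsSeparable (RatFunc k) K := by
    refine Algebra.IsSeparable.of_equiv_equiv (A₁ := k⟮t⟯) (B₁ := K) e.toRingEquiv.symm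
      (RingEquiv.refl K) ?_
    ext x
    change algebraMap (RatFunc k) K (e.symm x) = algebraMap k⟮t⟯ K x
    rw [hcomp, AlgEquiv.apply_symm_apply]
  refine ⟨alg, hst, ?_, hsep'⟩
  have h1 : Algebra.EssFiniteType (RatFunc k) K := Algebra.EssFiniteType.of_comp k (RatFunc k) K
  have h2 : Algebra.IsAlgebraic (RatFunc k) K := Algebra.IsSeparable.isAlgebraic (RatFunc k) K
  exact Algebra.finite_of_essFiniteType_of_isAlgebraic

end Pool.Agent.GBC
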