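import Pool.Agent.Lib.GBC.H.Density
import Pool.Agent.Lib.GBC.H.Sep
import Pool.Agent.Lib.GBC.D.Data
import Pool.Agent.Lib.GBC.J.Main
import Pool.Agent.Lib.GBC.E.Main
import Pool.Agent.Lib.GBC.G.Comp
import Pool.Agent.Lib.GBR.RecipN
import Pool.Agent.Lib.HYP.H.Mum

/-!
Block H. The main theorems over a function field `K` of transcendence degree one over a finite
field `k`.
-/

set_option autoImplicit false

open Polynomial

namespace Pool.Agent.GBC

open Pool.Agent.BSDP Pool.Agent.BSDFF Pool.Agent.HYP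

variable {k K : Type} [Field k] [Field K] [Algebra k K]

/-- The image of a Mumford pair over `K` is a square if the Selmer group is trivial. -/
theorem mumford_sq {g : ℕ} {f : K[X]} (hm : f.Monic) (h : SelTriv k g f) {U V : K[X]}
    (hM : Mumford f g U V) : IsSquare ((-1) ^ U.natDegree * AdjoinRoot.mk f U) := by
  have hu : IsUnit ((-1) ^ U.natDegree * AdjoinRoot.mk f U) :=
    ((isUnit_one.neg).pow _).mul (isUnit_mk_of_coprime hM.cop)
  have hN := norm_mumford hm hM.monic hM.dvd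
  refine h _ ⟨resultant U V, ?_, hN⟩ ?_
  · intro h0
    rw [h0] at hN
    have h1 := (isUnit_iff_norm hm _).1 hu
    rw [hN] at h1
    exact absurd h1 (by simp)
  · intro w
    refine ⟨U.map w.toCompletion, V.map w.toCompletion, hM.map _, 1, isUnit_one, ?_⟩
    rw [one_pow, mul_one, hM.monic.natDegree_map, map_mul, map_pow, map_neg, map_one, bc_mk]

/-- **Every genus.** -/
theorem main_high [Finite k] [Algebra.EssFiniteType k K] (hK : Algebra.trdeg k K = 1) {g : ℕ}
    (hg : 1 ≤ g) (hp : 2 * g + 1 < ringChar k) :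
    (∀ (M : ℕ) (P : K[X] → Prop), (Classes k g M P).Finite) ∧
    ∃ c : ℝ, 0 < c ∧ ∃ M₀ : ℕ, ∀ M ≥ M₀,
      c * ((Classes k g M (fun _ : K[X] => True)).ncard : ℝ) ≤
        ((Classes k g M (fun f : K[X] => Irreducible f ∧ SelTriv k g f ∧
          ∀ U V : K[X], Mumford f g U V → IsSquare ((-1) ^ U.natDegree * AdjoinRoot.mk f U))).ncard :
          ℝ) ∧
      c * (Nat.card k : ℝ) ^ ((4 * g ^ 2 + 6 * g) * M) ≤
        ((Classes k g M (fun f : K[X] => Irreducible f ∧ SelTriv k g f ∧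
          ∀ U V : K[X], Mumford f g U V → IsSquare ((-1) ^ U.natDegree * AdjoinRoot.mk f U))).ncard :
          ℝ) := by
  have : PerfectField k := inferInstance
  obtain ⟨alg, h1, h2, h3⟩ := exists_ratFunc k K hK
  have hk2 : (2 : k) ≠ 0 := by
    intro h0
    have h1 : ((2 : ℕ) : k) = 0 := by exact_mod_cast h0
    have := Nat.le_of_dvd (by norm_num) ((ringChar.spec k 2).1 h1)
    omega
  obtain ⟨G, -⟩ := exists_geo k K
  obtain ⟨C, hC⟩ := upper G g
  refine ⟨fun M P => (hC M P).1, ?_⟩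
  obtain ⟨D, -, c, hc, M₀, hM⟩ := density (locC hk2) hg
    (fun Q hQ hd v₀ H => GBR.recipN hk2 hg Q hQ hd v₀ H) hp G (fun _ => True)
    (fun N hN hr => by
      obtain ⟨D, hD⟩ := exists_dataG G g hg hp N hN hr
      exact ⟨D, hD, trivial⟩)
  refine ⟨c, hc, M₀, fun M hM' => ?_⟩
  have hsub : Classes k g M (Good D) ⊆ Classes k g M (fun f : K[X] => Irreducible f ∧
      SelTriv k g f ∧ ∀ U V : K[X], Mumford f g U V →
        IsSquare ((-1) ^ U.natDegree * AdjoinRoot.mk f U)) := by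
    rintro _ ⟨F, rfl, hF1, hF2, hF3, m, f, e, hm, hf, he, hFe⟩
    refine ⟨F, rfl, hF1, hF2, ?_, hF3, fun U V hUV => mumford_sq hF1.monic hF3 hUV⟩
    exact irreducible_scale he hFe (irr_fK hf.toFam₀)
  have hle := Nat.cast_le (α := ℝ).2 (Set.ncard_le_ncard hsub (hC M _).1)
  exact ⟨(hM M hM').1.trans hle, (hM M hM').2.trans hle⟩

/-- **Genus one.** -/
theorem main_one [Finite k] [Algebra.EssFiniteType k K] (hK : Algebra.trdeg k K = 1)
    (h2 : (2 : k) ≠ 0) (h3 : (3 : k) ≠ 0) :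
    (∀ (M : ℕ) (P : K[X] → Prop), (Classes k 1 M P).Finite) ∧
    ∃ c : ℝ, 0 < c ∧ ∃ M₀ : ℕ, ∀ M ≥ M₀,
      c * ((Classes k 1 M (fun _ : K[X] => True)).ncard : ℝ) ≤
        ((Classes k 1 M (fun f : K[X] => Transcendental k (jinv (f.coeff 1) (f.coeff 0)) ∧
          TrivialSelmer k (f.coeff 1) (f.coeff 0))).ncard : ℝ) ∧
      c * (Nat.card k : ℝ) ^ (10 * M) ≤
        ((Classes k 1 M (fun f : K[X] => Transcendental k (jinv (f.coeff 1) (f.coeff 0)) ∧
          TrivialSelmer k (f.coeff 1) (f.coeff 0))).ncard : ℝ) := by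
  have : PerfectField k := inferInstance
  obtain ⟨alg, i1, i2, i3⟩ := exists_ratFunc k K hK
  have hp : 2 * 1 + 1 < ringChar k := by
    have hpr : (ringChar k).Prime := CharP.char_is_prime k (ringChar k)
    have hge := hpr.two_le
    by_contra hcon
    have hle : ringChar k ≤ 3 := by omega
    have hcases : ringChar k = 2 ∨ ringChar k = 3 := by omega
    rcases hcases with h | h
    · apply h2
      have := (ringChar.spec k 2).2 (by rw [h])
      exact_mod_cast this
    · apply h3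
      have := (ringChar.spec k 3).2 (by rw [h])
      exact_mod_cast this
  obtain ⟨G, -⟩ := exists_geo k K
  obtain ⟨C, hC⟩ := upper G 1
  refine ⟨fun M P => (hC M P).1, ?_⟩
  obtain ⟨D, hD, c, hc, M₀, hM⟩ := density (locC h2) le_rfl
    (fun Q hQ hd v₀ H => GBR.recipN h2 le_rfl Q hQ hd v₀ H) hp G (fun D => D.φ.coeff 1 = -1)
    (fun N hN hr => exists_data_one G N hN hr)
  refine ⟨c, hc, M₀, fun M hM' => ?_⟩
  have hsub : Classes k 1 M (Good D) ⊆ Classes k 1 M (fun f : K[X] =>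
      Transcendental k (jinv (f.coeff 1) (f.coeff 0)) ∧
        TrivialSelmer k (f.coeff 1) (f.coeff 0)) := by
    rintro _ ⟨F, rfl, hF1, hF2, hF3, m, f, e, hm, hf, he, rfl⟩
    obtain ⟨h4, h5⟩ := trivialSelmer_twist h2 h3 (coeff_one_notMem hD) hm hf he hF3
    exact ⟨_, rfl, hF1, hF2, h5, h4⟩
  have hle := Nat.cast_le (α := ℝ).2 (Set.ncard_le_ncard hsub (hC M _).1)
  exact ⟨(hM M hM').1.trans hle, (hM M hM').2.trans hle⟩

end Pool.Agent.GBC
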