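import Pool.Agent.Lib.GBC.P.Riem

/-!
Block H (heights). The isomorphism classes of height at most `M` are finitely many, at most
`C q ^ (M (4 g ^ 2 + 6 g))`.

A model with the divisor `D`, `deg D ≤ M`: by Riemann's inequality there is `u ≠ 0` with
`ord u ≥ D - Y T`, `T` the divisor of the poles of `t`, `Y` about `M / d`; then `u ^ (2 i) a_i` is in
`A ∩ M (2 i Y)`.
-/

set_option autoImplicit false

open Polynomial

namespace Pool.Agent.GBC

open Pool.Agent.BSDP Pool.Agent.BSDFF Pool.Agent.HYP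

variable {k K : Type} [Field k] [Field K] [Algebra k K] (G : Geo k K)

/-- The polynomials over `A` with `a_i ∈ M (2 i Y)`. -/
def Sm (g Y : ℕ) : Set G.A[X] :=
  {f | f.Monic ∧ f.natDegree = 2 * g + 1 ∧ f.coeff (2 * g) = 0 ∧
    ∀ j ≤ 2 * g + 1, (f.coeff j : K) ∈ G.M (2 * (2 * g + 1 - j : ℕ) * Y)}

theorem sum_exp (g : ℕ) : ∑ j ∈ Finset.range (2 * g), 2 * (2 * g + 1 - j) = 4 * g ^ 2 + 6 * g := by
  have h : ∀ n : ℕ, n ≤ 2 * g → ∑ j ∈ Finset.range n, (2 * (2 * g + 1 - j)) + n * (n - 1) =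
      2 * (2 * g + 1) * n := by
    intro n
    induction n with
    | zero => intro _; simp
    | succ n ih =>
      intro hn
      have h1 := ih (by omega)
      rw [Finset.sum_range_succ]
      obtain ⟨r, hr⟩ : ∃ r, 2 * g + 1 = n + r := ⟨2 * g + 1 - n, by omega⟩
      rcases n with _ | n
      · simp
      · have e1 : 2 * g + 1 - (n + 1) = r := by omega
        simp only [Nat.add_sub_cancel] at h1 ⊢
        rw [e1]
        nlinarith
  have h1 := h (2 * g) le_rfl
  rcases g with _ | g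
  · simp
  · have : 2 * (g + 1) - 1 = 2 * g + 1 := by omega
    rw [this] at h1
    nlinarith

/-- The number of elements of `A ∩ M y`. -/
theorem card_L [Finite k] {y : ℕ} :
    Finite (G.L (y : ℤ)) ∧ Nat.card (G.L (y : ℤ)) ≤ Nat.card k ^ (G.d * (y + 1)) := by
  have hL := G.fin_L (y : ℤ)
  have hLf : Finite (G.L (y : ℤ)) := Module.finite_of_finite k
  refine ⟨hLf, ?_⟩
  have h1 : Nat.card (G.L (y : ℤ)) = Nat.card k ^ Module.finrank k (G.L (y : ℤ)) :=
    Module.natCard_eq_pow_finrank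
  rw [h1]
  have h2 := G.finrank_L_le (y := (y : ℤ)) (by omega)
  have h3 : Module.finrank k (G.L (y : ℤ)) ≤ G.d * (y + 1) := by exact_mod_cast h2
  exact Nat.pow_le_pow_right Nat.card_pos h3

/-- The coefficients of a member of `Sm`. -/
noncomputable def smCo (g Y : ℕ) (f : Sm G g Y) (j : Fin (2 * g)) :
    G.L ((2 * (2 * g + 1 - (j : ℕ)) * Y : ℕ) : ℤ) :=
  ⟨(f.1.coeff j : K), (f.1.coeff j).2, by
    have h := f.2.2.2.2 j (by omega)
    have e : (2 * ((2 * g + 1 - (j : ℕ) : ℕ) : ℤ) * (Y : ℤ)) =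
        ((2 * (2 * g + 1 - (j : ℕ)) * Y : ℕ) : ℤ) := by push_cast; ring
    rwa [e] at h⟩

theorem smCo_inj (g Y : ℕ) : Function.Injective (smCo G g Y) := by
  rintro ⟨f, hf⟩ ⟨f', hf'⟩ h
  apply Subtype.ext
  ext j
  have hj : f.coeff j = f'.coeff j := by
    by_cases h1 : j < 2 * g
    · have := congrArg (fun z => ((z ⟨j, h1⟩ : G.L _) : K)) h
      exact Subtype.ext this
    · by_cases h2 : j = 2 * g
      · rw [h2, hf.2.2.1, hf'.2.2.1]
      · by_cases h3 : j = 2 * g + 1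
        · have e1 := hf.1.coeff_natDegree
          have e2 := hf'.1.coeff_natDegree
          rw [hf.2.1] at e1
          rw [hf'.2.1] at e2
          rw [h3, e1, e2]
        · rw [coeff_eq_zero_of_natDegree_lt (by rw [hf.2.1]; omega),
            coeff_eq_zero_of_natDegree_lt (by rw [hf'.2.1]; omega)]
  exact congrArg _ hj

theorem card_Sm [Finite k] (g Y : ℕ) : (Sm G g Y).Finite ∧
    (Sm G g Y).ncard ≤ Nat.card k ^ (G.d * ((4 * g ^ 2 + 6 * g) * Y + 2 * g)) := by
  have hfin : ∀ j : Fin (2 * g), Finite (G.L ((2 * (2 * g + 1 - (j : ℕ)) * Y : ℕ) : ℤ)) :=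
    fun j => (card_L G).1
  have hF : Finite (∀ j : Fin (2 * g), G.L ((2 * (2 * g + 1 - (j : ℕ)) * Y : ℕ) : ℤ)) :=
    Pi.finite
  have hS : Finite (Sm G g Y) := Finite.of_injective _ (smCo_inj G g Y)
  refine ⟨hS, ?_⟩
  rw [← Nat.card_coe_set_eq]
  refine (Nat.card_le_card_of_injective _ (smCo_inj G g Y)).trans ?_
  rw [Nat.card_pi]
  refine (Finset.prod_le_prod' (fun j _ => (card_L G).2)).trans (le_of_eq ?_)
  rw [Finset.prod_pow_eq_pow_sum, ← Finset.mul_sum]
  congr 2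
  rw [Finset.sum_add_distrib, Finset.sum_const, Finset.card_univ, Fintype.card_fin, smul_eq_mul,
    mul_one, ← Finset.sum_mul, Fin.sum_univ_eq_sum_range (fun j => 2 * (2 * g + 1 - j)) (2 * g),
    sum_exp]

theorem degD_sub (D D' : Place k K →₀ ℤ) : degD (D - D') = degD D - degD D' := by
  unfold degD
  exact Finsupp.sum_sub_index (fun w a b => by ring)

theorem degD_smul (n : ℤ) (D : Place k K →₀ ℤ) : degD (n • D) = n * degD D := by
  unfold degD
  rw [Finsupp.sum_smul_index' (fun w => by ring), Finsupp.sum, Finsupp.sum, Finset.mul_sum]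
  refine Finset.sum_congr rfl fun w _ => ?_
  rw [smul_eq_mul]
  ring

/-- An element with no poles at the finite places is in `A`. -/
theorem mem_A_of_ord {x : K} (h : ∀ w : Place k K, Over G.A w → x = 0 ∨ 0 ≤ ord w x) : x ∈ G.A := by
  have h1 : x ∈ RRS G.A (0 : Place k K →₀ ℤ) := h
  rwa [RR_zero] at h1

/-- Every class of height at most `M` contains a member of `Sm G g (M / d + C)`. -/
theorem exists_rep : ∃ C : ℕ, ∀ (g M : ℕ) (f : K[X]), Model g f → HeightLE k g M f →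
    ∃ f' ∈ Sm G g (M / G.d + C), Quotient.mk (isoRel K) (G.fK f') = Quotient.mk (isoRel K) f := by
  obtain ⟨C, hC⟩ := G.riemann
  obtain ⟨T, hT1, hT2, hT3⟩ := G.exists_tDiv
  have hd : (0 : ℤ) < G.d := by exact_mod_cast G.d_pos
  refine ⟨C.toNat + 2, fun g M f hf hH => ?_⟩
  obtain ⟨D, hD, hdeg⟩ := hH
  set Y : ℕ := M / G.d + (C.toNat + 2) with hY
  have hlt : C < -degD (D - (Y : ℤ) • T) := by
    have h1 : degD D ≤ M := hdeg
    rw [degD_sub, degD_smul, hT3]
    have h2 : (M : ℤ) < G.d * (M / G.d + 1 : ℕ) := by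
      exact_mod_cast Nat.lt_mul_div_succ M G.d_pos
    have h3 : C ≤ C.toNat := Int.self_le_toNat C
    have h4 : (Y : ℤ) = (M / G.d + 1 : ℕ) + (C.toNat + 1 : ℤ) := by
      rw [hY]; push_cast; ring
    have h5 : (C.toNat + 1 : ℤ) ≤ G.d * (C.toNat + 1 : ℤ) := by
      have : (0 : ℤ) ≤ C.toNat + 1 := by positivity
      nlinarith
    rw [h4]
    nlinarith
  obtain ⟨u, hu0, hu⟩ := hC _ hlt
  have hu' : ∀ w, D w - Y * T w ≤ ord w u := by
    intro w
    have := hu w
    simpa using this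
  -- the order of the coefficients
  have hco : ∀ j ≤ 2 * g + 1, ∀ w : Place k K, f.coeff j * (u ^ 2) ^ (2 * g + 1 - j) ≠ 0 →
      -(2 * ((2 * g + 1 - j : ℕ) : ℤ) * Y * T w) ≤
        ord w (f.coeff j * (u ^ 2) ^ (2 * g + 1 - j)) := by
    intro j hj w h0
    have ha : f.coeff j ≠ 0 := left_ne_zero_of_mul h0
    have hu2 : (u ^ 2) ^ (2 * g + 1 - j) ≠ 0 := right_ne_zero_of_mul h0
    have h1 := hD w (2 * g + 1 - j) (Nat.sub_le _ _)
    rw [Nat.sub_sub_self hj, poleLE_iff] at h1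
    have h2 := h1.resolve_left ha
    rw [ord_mul w ha hu2, ord_pow w (pow_ne_zero 2 hu0), ord_pow w hu0]
    have h3 := hu' w
    have h4 : (0 : ℤ) ≤ ((2 * g + 1 - j : ℕ) : ℤ) := Nat.cast_nonneg _
    push_cast
    nlinarith
  have hmem : ∀ j ≤ 2 * g + 1, f.coeff j * (u ^ 2) ^ (2 * g + 1 - j) ∈ G.A := by
    intro j hj
    apply mem_A_of_ord
    intro w hw
    by_cases h0 : f.coeff j * (u ^ 2) ^ (2 * g + 1 - j) = 0
    · exact Or.inl h0
    · right
      have h1 := hco j hj w h0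
      rw [hT2 w hw, mul_zero, neg_zero] at h1
      exact h1
  have hcoe : ∀ j, (f.scaleRoots (u ^ 2)).coeff j = f.coeff j * (u ^ 2) ^ (2 * g + 1 - j) := by
    intro j
    rw [coeff_scaleRoots, hf.deg]
  have hlift : f.scaleRoots (u ^ 2) ∈ Polynomial.lifts (algebraMap G.A K) := by
    rw [lifts_iff_coeff_lifts]
    intro j
    rw [hcoe]
    by_cases hj : j ≤ 2 * g + 1
    · exact ⟨⟨_, hmem j hj⟩, rfl⟩
    · rw [coeff_eq_zero_of_natDegree_lt (by rw [hf.deg]; omega), zero_mul]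
      exact ⟨0, map_zero _⟩
  obtain ⟨f', hf'⟩ := (mem_lifts _).1 hlift
  have hinj : Function.Injective (algebraMap G.A K) := Subtype.val_injective
  have hfc : ∀ j, (f'.coeff j : K) = f.coeff j * (u ^ 2) ^ (2 * g + 1 - j) := by
    intro j
    rw [← hcoe j, ← hf', coeff_map]
    rfl
  refine ⟨f', ⟨?_, ?_, ?_, ?_⟩, ?_⟩
  · apply Polynomial.monic_of_injective hinj
    rw [hf']
    exact (monic_scaleRoots_iff _).2 hf.monic
  · rw [← natDegree_map_eq_of_injective hinj, hf', natDegree_scaleRoots, hf.deg]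
  · apply Subtype.ext
    rw [hfc, hf.tr, zero_mul]
    rfl
  · intro j hj
    rw [hfc]
    by_cases h0 : f.coeff j * (u ^ 2) ^ (2 * g + 1 - j) = 0
    · rw [h0]
      exact zero_mem _
    · rw [G.mem_M_iff _ h0]
      intro w hw
      have h1 := hco j hj w h0
      rw [hT1 w hw] at h1
      linarith
  · symm
    apply Quotient.sound
    exact ⟨u, hu0, hf'⟩

include G in
/-- **Upper bound** for the number of classes. -/
theorem upper [Finite k] (g : ℕ) : ∃ C : ℕ, ∀ (M : ℕ) (P : K[X] → Prop),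
    (Classes k g M P).Finite ∧
      (Classes k g M P).ncard ≤ C * Nat.card k ^ (M * (4 * g ^ 2 + 6 * g)) := by
  obtain ⟨C, hC⟩ := exists_rep G
  refine ⟨Nat.card k ^ (G.d * ((4 * g ^ 2 + 6 * g) * C + 2 * g)), fun M P => ?_⟩
  obtain ⟨hf, hc⟩ := card_Sm G g (M / G.d + C)
  have hsub : Classes k g M P ⊆ (fun f : G.A[X] => Quotient.mk (isoRel K) (G.fK f)) ''
      Sm G g (M / G.d + C) := by
    rintro _ ⟨f, rfl, hM, hH, -⟩
    obtain ⟨f', h1, h2⟩ := hC g M f hM hH
    exact ⟨f', h1, h2⟩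
  refine ⟨(hf.image _).subset hsub, ?_⟩
  refine (Set.ncard_le_ncard hsub (hf.image _)).trans ((Set.ncard_image_le hf).trans
    (hc.trans ?_))
  rw [← pow_add]
  apply Nat.pow_le_pow_right Nat.card_pos
  have h1 : G.d * (M / G.d) ≤ M := Nat.mul_div_le M G.d
  calc G.d * ((4 * g ^ 2 + 6 * g) * (M / G.d + C) + 2 * g)
      = G.d * ((4 * g ^ 2 + 6 * g) * C + 2 * g) + (G.d * (M / G.d)) * (4 * g ^ 2 + 6 * g) := by ring
    _ ≤ G.d * ((4 * g ^ 2 + 6 * g) * C + 2 * g) + M * (4 * g ^ 2 + 6 * g) := by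
        gcongr

end Pool.Agent.GBC
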